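import Mathlib
import Pool.Agent.N778.CH.ScaleZ

set_option autoImplicit false

/-!
# At most one exception for every odd zeta value: `ζ(k)` and the incomplete integrals `R_k(x)`

For rational numbers `a`, `x` and `l ≥ 1` let `E_{a,l}(x) = ∑_{m ≥ 1} (-1)^(m+1) x^m / (m! (m + a)^l)`. Let `M` be the field
generated by `e` and all the numbers `E_{a,l}(x)`, `x > 0`, where `0 < a < 1`, `l ≥ 1` or `a = 0`, `l = 1`.

For an integer `k ≥ 2` let `ω = exp (2 π i / k)`. For a rational number `x ≥ 0` let `R_k(x)` be the integral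
`(-1)^k / k! * ∫ (∑_j ω^j log t_j)^k exp (-∑_j t_j) dt` over the part `(0, ∞)^k \ (0, x)^k` of the octant.

(1) `R_k(x)` is real and `R_k(0) = ζ(k)`.

We consider the numbers `π`, `ζ(k)` for odd `k ≥ 3`, and `R_k(x)` for `k ≥ 2` and rational `x > 0`. They are divided into
blocks: for every odd `k ≥ 3` the numbers `ζ(k)`, `R_k(x)` are a block (for example `ζ(11)` and the numbers `R_11(x)`), and
`π` and all the numbers `R_k(x)`, `k` even, are a block.

(2) Let `T` be a finite set of the names of these numbers, `B` a finite set of triples `(a, l, x)` as above. For every `D`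
there are `κ` and `c > 0` such that for every `H ≥ 1` there is a subset `N` of `T` with at most one element in each block,
such that for all nonzero integral polynomials `P` of degree at most `D` and height at most `H` the value of `P` at `e`,
the `E_b`, `b ∈ B`, and the numbers with names in `T \ N` is at least `c / H ^ κ` in absolute value.

(3) There is a set `N` of names with at most one element in each block, such that all the numbers whose names are not in `N`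
are algebraically independent over the field `M`.

(4) There is a set `K` of odd integers `≥ 3` such that the numbers `ζ(k)`, `k ∈ K`, and `R_k(x)`, `k ≥ 3` odd, `k ∉ K`,
`x > 0`, are algebraically independent over `M` together with `π`, or together with all the numbers `R_k(x)`, `k` even,
`x > 0`. If `ζ(11)` is rational then `11 ∉ K`, so that the numbers `R_11(x)` occur.
-/

namespace Pool.Agent.Results.MP_4f096c_nt.OneExceptionPerZetaValue

open Set MeasureTheory MvPolynomial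

/-- the zeta value `ζ(s) = ∑ 1 / n^s` -/
noncomputable def zeta (s : ℕ) : ℝ := ∑' n : ℕ, 1 / ((n : ℝ) + 1) ^ s

/-- `ω = exp (2 π i / k)` -/
noncomputable def root (k : ℕ) : ℂ := Complex.exp (2 * Real.pi * Complex.I / k)

/-- `(∑_j ω^j log t_j)^k exp (-∑_j t_j)` -/
noncomputable def integrand (k : ℕ) (t : Fin k → ℝ) : ℂ :=
  (∑ j : Fin k, root k ^ (j : ℕ) * (Real.log (t j) : ℂ)) ^ k * ((Real.exp (-∑ j, t j) : ℝ) : ℂ)

/-- `(0, ∞)^k \ (0, x)^k` -/
def rest (k : ℕ) (x : ℝ) : Set (Fin k → ℝ) := {t | (∀ j, 0 < t j) ∧ ∃ j, x ≤ t j}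

/-- `R_k(x)`, as a complex number -/
noncomputable def tailIntegral (k : ℕ) (x : ℚ) : ℂ := (-1) ^ k / k.factorial * ∫ t in rest k x, integrand k t

/-- `R_k(x)`, as a real number -/
noncomputable def R (k : ℕ) (x : ℚ) : ℝ := (tailIntegral k x).re

/-- `E_{a,l}(x) = ∑_{m ≥ 1} (-1)^(m+1) x^m / (m! (m + a)^l)` -/
noncomputable def E (a : ℚ) (l : ℕ) (x : ℚ) : ℝ :=
  ∑' m : ℕ, (-1) ^ m * (x : ℝ) ^ (m + 1) / ((m + 1).factorial * ((m : ℝ) + 1 + a) ^ l)

/-- the triples `(a, l, x)`, `x > 0`, where `0 < a < 1`, `l ≥ 1` or `a = 0`, `l = 1` -/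
def BaseValid (b : ℚ × ℕ × ℚ) : Prop := (b.1 = 0 ∧ b.2.1 = 1 ∨ 0 < b.1 ∧ b.1 < 1 ∧ 1 ≤ b.2.1) ∧ 0 < b.2.2

/-- the field `M` -/
noncomputable def bigField : IntermediateField ℚ ℝ :=
  IntermediateField.adjoin ℚ ({Real.exp 1} ∪ {z | ∃ (a : ℚ) (l : ℕ) (x : ℚ), BaseValid (a, l, x) ∧ z = E a l x})

/-- the names of the numbers: `none` for `π`, `some (k, x)` for `R_k(x)`, `some (k, 0)` for `ζ(k)` -/
abbrev Name : Type := Option (ℕ × ℚ)

/-- the numbers -/
noncomputable def value : Name → ℝ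
  | none => Real.pi
  | some (k, x) => R k x

/-- the names that are considered: `none`, and `some (k, x)` if `k ≥ 2` and `x > 0`, or `k ≥ 3` is odd and `x = 0` -/
def Valid : Name → Prop
  | none => True
  | some (k, x) => 2 ≤ k ∧ 0 < x ∨ (3 ≤ k ∧ Odd k) ∧ x = 0

/-- the number of the block: `k` for the numbers `R_k(x)`, `k` odd, and `0` for the others -/
def block : Name → ℕ
  | none => 0
  | some (k, _) => if Even k then 0 else k

/-- the numbers `e` and `E_b`, `b ∈ B` -/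
noncomputable def base (B : Finset (ℚ × ℕ × ℚ)) : Option B → ℝ
  | none => Real.exp 1
  | some b => E b.1.1 b.1.2.1 b.1.2.2

/-- every nonzero integral polynomial of degree at most `D` and height at most `H` has at the point `θ` an absolute value
`≥ δ` -/
def Good {ι : Type} (θ : ι → ℝ) (D : ℕ) (δ H : ℝ) : Prop :=
  ∀ P : MvPolynomial ι ℤ, P ≠ 0 → P.totalDegree ≤ D → (∀ s, |((P.coeff s : ℤ) : ℝ)| ≤ H) → δ ≤ |aeval θ P|

open Pool.Agent.N778.CH (NZ VZ blk vz scale_zeta all_zeta)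
open Pool.Agent.N778.AF (Bv BOK MS)

theorem rest_eq (k : ℕ) (x : ℝ) :
    rest k x = Pool.Agent.R352.Q.cube k (Ioi 0) \ Pool.Agent.R352.Q.cube k (Ioo 0 x) := by
  ext t
  simp only [rest, Pool.Agent.R352.Q.cube, mem_sdiff, mem_univ_pi, mem_Ioi, mem_Ioo]
  constructor
  · rintro ⟨h1, j, h2⟩
    exact ⟨h1, fun h => absurd (h j).2 (not_lt.2 h2)⟩
  · rintro ⟨h1, h2⟩
    push Not at h2
    obtain ⟨j, hj⟩ := h2
    exact ⟨h1, j, hj (h1 j)⟩

theorem tailIntegral_eq {k : ℕ} (hk : 2 ≤ k) {x : ℚ} (hx : 0 < x) :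
    tailIntegral k x = (Pool.Agent.R352.Q.Rk k x : ℂ) := by
  have hx' : (0 : ℝ) < x := by exact_mod_cast hx
  have h : tailIntegral k x = Pool.Agent.R352.Q.NI k
      (Pool.Agent.R352.Q.cube k (Ioi 0) \ Pool.Agent.R352.Q.cube k (Ioo 0 x)) := by
    rw [tailIntegral, rest_eq]
    rfl
  rw [h, Pool.Agent.R352.Q.NI_diff, Pool.Agent.R352.Q.NI_full hk, Pool.Agent.R352.Q.NI_box hk hx',
    Pool.Agent.R352.Q.Rk]
  push_cast
  rfl

theorem tailIntegral_zero {k : ℕ} (hk : 2 ≤ k) : tailIntegral k 0 = (zeta k : ℂ) := by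
  have h1 : rest k ((0 : ℚ) : ℝ) = Pool.Agent.R352.Q.cube k (Ioi 0) := by
    ext t
    simp only [rest, Pool.Agent.R352.Q.cube, mem_univ_pi, mem_Ioi, Rat.cast_zero]
    constructor
    · rintro ⟨h1, -⟩
      exact h1
    · intro h
      exact ⟨h, ⟨0, by omega⟩, (h _).le⟩
  have h2 : tailIntegral k 0 = Pool.Agent.R352.Q.NI k (Pool.Agent.R352.Q.cube k (Ioi 0)) := by
    rw [tailIntegral, h1]
    rfl
  rw [h2, Pool.Agent.R352.Q.NI_full hk]
  rfl

theorem R_zero {k : ℕ} (hk : 2 ≤ k) : R k 0 = zeta k := by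
  rw [R, tailIntegral_zero hk, Complex.ofReal_re]

theorem R_pos {k : ℕ} (hk : 2 ≤ k) {x : ℚ} (hx : 0 < x) : R k x = Pool.Agent.R352.Q.Rk k x := by
  rw [R, tailIntegral_eq hk hx, Complex.ofReal_re]

theorem E_eq (b : ℚ × ℕ × ℚ) : E b.1 b.2.1 b.2.2 = Bv b := by
  rw [E, Bv, Pool.Agent.R352.T.EA]
  congr 1
  funext m
  rw [neg_pow (b.2.2 : ℝ) (m + 1), pow_succ (-1 : ℝ) m]
  ring

theorem bigField_eq : bigField = IntermediateField.adjoin ℚ MS := by
  rw [bigField]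
  congr 1
  ext z
  constructor
  · rintro (hz | ⟨a, l, x, hb, rfl⟩)
    · exact ⟨none, (mem_singleton_iff.1 hz).symm⟩
    · exact ⟨some ⟨(a, l, x), hb⟩, (E_eq (a, l, x)).symm⟩
  · rintro ⟨o, rfl⟩
    cases o with
    | none => exact Or.inl rfl
    | some b => exact Or.inr ⟨b.1.1, b.1.2.1, b.1.2.2, b.2, (E_eq b.1).symm⟩

theorem valid_iff (p : Name) : Valid p ↔ VZ p := by
  rcases p with _ | ⟨k, x⟩
  · exact Iff.rfl
  · show (2 ≤ k ∧ 0 < x ∨ (3 ≤ k ∧ Odd k) ∧ x = 0) ↔ (2 ≤ k ∧ 0 ≤ x ∧ (x = 0 → ¬ Even k))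
    constructor
    · rintro (⟨h1, h2⟩ | ⟨⟨h1, h2⟩, h3⟩)
      · exact ⟨h1, h2.le, fun h => absurd h h2.ne'⟩
      · exact ⟨by omega, h3.ge, fun _ => Nat.not_even_iff_odd.2 h2⟩
    · rintro ⟨h1, h2, h3⟩
      rcases h2.eq_or_lt with h4 | h4
      · have h5 := Nat.not_even_iff_odd.1 (h3 h4.symm)
        refine Or.inr ⟨⟨?_, h5⟩, h4.symm⟩
        obtain ⟨m, hm⟩ := h5
        omega
      · exact Or.inl ⟨h1, h4⟩

theorem value_eq {p : Name} (h : Valid p) : value p = vz p := by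
  rcases p with _ | ⟨k, x⟩
  · rfl
  · rcases h with ⟨h1, h2⟩ | ⟨⟨h1, -⟩, h3⟩
    · show R k x = if x = 0 then _ else _
      rw [if_neg h2.ne', R_pos h1 h2]
    · show R k x = if x = 0 then _ else _
      rw [if_pos h3, h3, R_zero (by omega)]
      rfl

theorem block_eq (p : Name) : block p = blk p := by
  rcases p with _ | ⟨k, x⟩ <;> rfl

theorem part2 (T : Finset Name) (hT : ∀ p ∈ T, Valid p) (B : Finset (ℚ × ℕ × ℚ)) (hB : ∀ b ∈ B, BaseValid b) (D : ℕ) :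
    ∃ κ : ℕ, ∃ c : ℝ, 0 < c ∧ ∀ H : ℝ, 1 ≤ H → ∃ N : Finset Name, N ⊆ T ∧
      (∀ p ∈ N, ∀ q ∈ N, block p = block q → p = q) ∧
        Good (Sum.elim (base B) (fun p : {p // p ∈ T ∧ p ∉ N} => value p.1)) D (c / H ^ κ) H := by
  obtain ⟨κ, c, hc, h⟩ := scale_zeta T (fun p hp => (valid_iff p).1 (hT p hp)) B hB D
  refine ⟨κ, c, hc, fun H hH => ?_⟩
  obtain ⟨N, h1, h2, h3⟩ := h H hH
  refine ⟨N, h1, fun p hp q hq hpq => h2 p hp q hq (by rw [← block_eq, ← block_eq, hpq]), ?_⟩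
  have e : (Sum.elim (base B) (fun p : {p // p ∈ T ∧ p ∉ N} => value p.1)) =
      Sum.elim (fun o : Option B => o.elim (Real.exp 1) (fun b => Bv b)) (fun p : {p // p ∈ T ∧ p ∉ N} => vz p.1) := by
    funext i
    rcases i with (_ | b) | p
    · rfl
    · exact E_eq b.1
    · exact value_eq (hT _ p.2.1)
  rw [e]
  exact h3

theorem part3 : ∃ N : Set Name, (∀ p ∈ N, Valid p) ∧ (∀ p ∈ N, ∀ q ∈ N, block p = block q → p = q) ∧
    AlgebraicIndependent bigField (fun p : {p // Valid p ∧ p ∉ N} => value p.1) := by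
  obtain ⟨N, h1, h2, h3⟩ := all_zeta
  refine ⟨N, fun p hp => (valid_iff p).2 (h1 p hp),
    fun p hp q hq hpq => h2 p hp q hq (by rw [← block_eq, ← block_eq, hpq]), ?_⟩
  rw [bigField_eq]
  have h4 := h3.comp (fun p : {p // Valid p ∧ p ∉ N} => (⟨p.1, (valid_iff _).1 p.2.1, p.2.2⟩ : {p // VZ p ∧ p ∉ N})) (by
    intro p q hpq
    exact Subtype.ext (congrArg (fun z : {p // VZ p ∧ p ∉ N} => z.1) hpq))
  have e : (fun p : {p // Valid p ∧ p ∉ N} => value p.1) = (fun p : {p // VZ p ∧ p ∉ N} => vz p.1) ∘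
      (fun p : {p // Valid p ∧ p ∉ N} => (⟨p.1, (valid_iff _).1 p.2.1, p.2.2⟩ : {p // VZ p ∧ p ∉ N})) := by
    funext p
    exact value_eq p.2.1
  rw [e]
  exact h4

theorem part4 : ∃ K : Set ℕ, (∀ k ∈ K, 3 ≤ k ∧ Odd k) ∧
    (AlgebraicIndependent bigField (Sum.elim (Sum.elim (fun k : K => zeta k)
      (fun p : {p : ℕ × ℚ // ((3 ≤ p.1 ∧ Odd p.1) ∧ p.1 ∉ K) ∧ 0 < p.2} => R p.1.1 p.1.2)) (fun _ : Fin 1 => Real.pi)) ∨
    AlgebraicIndependent bigField (Sum.elim (Sum.elim (fun k : K => zeta k)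
      (fun p : {p : ℕ × ℚ // ((3 ≤ p.1 ∧ Odd p.1) ∧ p.1 ∉ K) ∧ 0 < p.2} => R p.1.1 p.1.2))
      (fun p : {p : ℕ × ℚ // (2 ≤ p.1 ∧ Even p.1) ∧ 0 < p.2} => R p.1.1 p.1.2))) := by
  obtain ⟨N, h1, h2, h3⟩ := part3
  let K : Set ℕ := {k | (3 ≤ k ∧ Odd k) ∧ some (k, 0) ∉ N}
  have hK1 : ∀ k : K, Valid (some (k.1, 0)) ∧ some (k.1, 0) ∉ N := fun k => ⟨Or.inr ⟨k.2.1, rfl⟩, k.2.2⟩
  have hK2 : ∀ p : {p : ℕ × ℚ // ((3 ≤ p.1 ∧ Odd p.1) ∧ p.1 ∉ K) ∧ 0 < p.2}, Valid (some p.1) ∧ some p.1 ∉ N := by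
    rintro ⟨⟨k, x⟩, ⟨⟨h4, h5⟩, h6⟩, h7⟩
    refine ⟨Or.inl ⟨(by omega : 2 ≤ k), h7⟩, fun h8 => ?_⟩
    have h9 : some (k, 0) ∈ N := by
      by_contra h10
      exact h6 ⟨⟨h4, h5⟩, h10⟩
    have h10 := congrArg (fun z : ℕ × ℚ => z.2) (Option.some_injective _ (h2 _ h8 _ h9 rfl))
    exact absurd h10 h7.ne'
  refine ⟨K, fun k hk => hk.1, ?_⟩
  let g0 : K ⊕ {p : ℕ × ℚ // ((3 ≤ p.1 ∧ Odd p.1) ∧ p.1 ∉ K) ∧ 0 < p.2} → {p // Valid p ∧ p ∉ N} :=
    Sum.elim (fun k => ⟨some (k.1, 0), hK1 k⟩) (fun p => ⟨some p.1, hK2 p⟩)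
  have hg0 : Function.Injective g0 := by
    rintro (k | p) (k' | p') h
    · have h4 : some (k.1, (0 : ℚ)) = some (k'.1, 0) := congrArg (fun z : {p // Valid p ∧ p ∉ N} => z.1) h
      have h5 : k.1 = k'.1 := congrArg (fun z : ℕ × ℚ => z.1) (Option.some_injective _ h4)
      rw [Subtype.ext h5]
    · have h4 : some (k.1, (0 : ℚ)) = some p'.1 := congrArg (fun z : {p // Valid p ∧ p ∉ N} => z.1) h
      have h5 : 0 = p'.1.2 := congrArg (fun z : ℕ × ℚ => z.2) (Option.some_injective _ h4)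
      exact absurd h5 p'.2.2.ne
    · have h4 : some p.1 = some (k'.1, (0 : ℚ)) := congrArg (fun z : {p // Valid p ∧ p ∉ N} => z.1) h
      have h5 : p.1.2 = 0 := congrArg (fun z : ℕ × ℚ => z.2) (Option.some_injective _ h4)
      exact absurd h5 p.2.2.ne'
    · have h4 : some p.1 = some p'.1 := congrArg (fun z : {p // Valid p ∧ p ∉ N} => z.1) h
      rw [Subtype.ext (Option.some_injective _ h4)]
  have hodd : ∀ a, ∃ (k : ℕ) (x : ℚ), (g0 a).1 = some (k, x) ∧ Odd k := by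
    rintro (k | p)
    · exact ⟨k.1, 0, rfl, k.2.1.2⟩
    · exact ⟨p.1.1, p.1.2, rfl, p.2.1.1.2⟩
  have hval : ∀ a, value (g0 a).1 = Sum.elim (fun k : K => zeta k)
      (fun p : {p : ℕ × ℚ // ((3 ≤ p.1 ∧ Odd p.1) ∧ p.1 ∉ K) ∧ 0 < p.2} => R p.1.1 p.1.2) a := by
    rintro (k | p)
    · exact R_zero (by have := k.2.1.1; omega)
    · rfl
  by_cases hpi : (none : Name) ∈ N
  · right
    have hK3 : ∀ p : {p : ℕ × ℚ // (2 ≤ p.1 ∧ Even p.1) ∧ 0 < p.2}, Valid (some p.1) ∧ some p.1 ∉ N := by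
      rintro ⟨⟨k, x⟩, ⟨h4, h5⟩, h7⟩
      refine ⟨Or.inl ⟨h4, h7⟩, fun h8 => ?_⟩
      have h9 := h2 _ h8 _ hpi (if_pos h5)
      exact absurd h9 (by simp)
    let g := Sum.elim g0 (fun p : {p : ℕ × ℚ // (2 ≤ p.1 ∧ Even p.1) ∧ 0 < p.2} =>
      (⟨some p.1, hK3 p⟩ : {p // Valid p ∧ p ∉ N}))
    have hg : Function.Injective g := by
      rintro (a | p) (b | q) h
      · rw [hg0 h]
      · exfalso
        obtain ⟨k, x, h4, h5⟩ := hodd a
        have h6 : (g0 a).1 = some q.1 := congrArg (fun z : {p // Valid p ∧ p ∉ N} => z.1) h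
        have h7 : k = q.1.1 := congrArg (fun z : ℕ × ℚ => z.1) (Option.some_injective _ (h4.symm.trans h6))
        exact Nat.not_even_iff_odd.2 h5 (h7 ▸ q.2.1.2)
      · exfalso
        obtain ⟨k, x, h4, h5⟩ := hodd b
        have h6 : some p.1 = (g0 b).1 := congrArg (fun z : {p // Valid p ∧ p ∉ N} => z.1) h
        have h7 : p.1.1 = k := congrArg (fun z : ℕ × ℚ => z.1) (Option.some_injective _ (h6.trans h4))
        exact Nat.not_even_iff_odd.2 h5 (h7 ▸ p.2.1.2)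
      · have h4 : some p.1 = some q.1 := congrArg (fun z : {p // Valid p ∧ p ∉ N} => z.1) h
        rw [Subtype.ext (Option.some_injective _ h4)]
    have h4 := h3.comp g hg
    convert h4 using 1
    funext i
    rcases i with a | p
    · exact (hval a).symm
    · rfl
  · left
    let g := Sum.elim g0 (fun _ : Fin 1 => (⟨none, trivial, hpi⟩ : {p // Valid p ∧ p ∉ N}))
    have hg : Function.Injective g := by
      rintro (a | p) (b | q) h
      · rw [hg0 h]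
      · exfalso
        obtain ⟨k, x, h4, h5⟩ := hodd a
        have h6 : (g0 a).1 = none := congrArg (fun z : {p // Valid p ∧ p ∉ N} => z.1) h
        rw [h4] at h6
        exact absurd h6 (by simp)
      · exfalso
        obtain ⟨k, x, h4, h5⟩ := hodd b
        have h6 : none = (g0 b).1 := congrArg (fun z : {p // Valid p ∧ p ∉ N} => z.1) h
        rw [h4] at h6
        exact absurd h6 (by simp)
      · rw [Subsingleton.elim p q]
    have h4 := h3.comp g hg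
    convert h4 using 1
    funext i
    rcases i with a | p
    · exact (hval a).symm
    · rfl

theorem result :
    -- (1)
    (∀ k : ℕ, 2 ≤ k → (∀ x : ℚ, 0 ≤ x → (tailIntegral k x).im = 0) ∧ R k 0 = zeta k) ∧
    -- (2)
    (∀ T : Finset Name, (∀ p ∈ T, Valid p) → ∀ B : Finset (ℚ × ℕ × ℚ), (∀ b ∈ B, BaseValid b) → ∀ D : ℕ,
      ∃ κ : ℕ, ∃ c : ℝ, 0 < c ∧ ∀ H : ℝ, 1 ≤ H → ∃ N : Finset Name, N ⊆ T ∧
        (∀ p ∈ N, ∀ q ∈ N, block p = block q → p = q) ∧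
          Good (Sum.elim (base B) (fun p : {p // p ∈ T ∧ p ∉ N} => value p.1)) D (c / H ^ κ) H) ∧
    -- (3)
    (∃ N : Set Name, (∀ p ∈ N, Valid p) ∧ (∀ p ∈ N, ∀ q ∈ N, block p = block q → p = q) ∧
      AlgebraicIndependent bigField (fun p : {p // Valid p ∧ p ∉ N} => value p.1)) ∧
    -- (4)
    (∃ K : Set ℕ, (∀ k ∈ K, 3 ≤ k ∧ Odd k) ∧
      (AlgebraicIndependent bigField (Sum.elim (Sum.elim (fun k : K => zeta k)
        (fun p : {p : ℕ × ℚ // ((3 ≤ p.1 ∧ Odd p.1) ∧ p.1 ∉ K) ∧ 0 < p.2} => R p.1.1 p.1.2))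
          (fun _ : Fin 1 => Real.pi)) ∨
      AlgebraicIndependent bigField (Sum.elim (Sum.elim (fun k : K => zeta k)
        (fun p : {p : ℕ × ℚ // ((3 ≤ p.1 ∧ Odd p.1) ∧ p.1 ∉ K) ∧ 0 < p.2} => R p.1.1 p.1.2))
          (fun p : {p : ℕ × ℚ // (2 ≤ p.1 ∧ Even p.1) ∧ 0 < p.2} => R p.1.1 p.1.2)))) := by
  refine ⟨fun k hk => ⟨fun x hx => ?_, R_zero hk⟩, part2, part3, part4⟩
  rcases hx.eq_or_lt with h | h
  · rw [← h, tailIntegral_zero hk, Complex.ofReal_im]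
  · rw [tailIntegral_eq hk h, Complex.ofReal_im]

end Pool.Agent.Results.MP_4f096c_nt.OneExceptionPerZetaValue
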