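import Pool.Agent.N743.SimR
import Pool.Agent.TH900.XM.Meas

/-!
# The rational approximations of `ζ(11), ζ(13), …, ζ(27)` at all scales

A number `u` is near at the scale `X` (with parameter `θ`) if some fraction `p / q` with `q ≤ X ^ θ` lies within `1 / X`
of `u`. For the nine numbers `ζ(11), ζ(13), …, ζ(27)`, one of which is irrational, we show, if
`14652 θ M < 1`, `M > 1`:

* At every large scale at most eight of the numbers are near.
* If eight of the numbers are rational then precisely these eight are near at all large scales.
* Otherwise every large scale `X` at which eight of the numbers are near is followed by a scale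
  `Z ≥ X` such that only these eight can be near between `X` and `Z`, and at every scale between `Z`
  and `Z ^ M` at most seven are near; and there are arbitrarily large such `Z`.

So eight of the numbers are rational if and only if at every large scale eight of them are near.

The proof combines the simultaneous measure of the starting library (`MeasureZeta11To27`, exponent `1628`) with the
combinatorial engine `Pool.Agent.N743.engineR`.
-/

set_option autoImplicit false

namespace Pool.Agent.Results.MP_4f096c_nt.ScaleDichotomy

open Pool.Agent.N743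

/-- the numbers `ζ(11), ζ(13), …, ζ(27)`, for `i = 0, …, 8` -/
noncomputable def number (i : Fin 9) : ℝ := ∑' n : ℕ, 1 / ((n : ℝ) + 1) ^ (2 * (i : ℕ) + 11)

/-- **The scale dichotomy of rank `8`** for the rational approximations of `ζ(11), ζ(13), …, ζ(27)`. -/
theorem result : (∀ i : Fin 9, ((number i : ℝ) : ℂ) = riemannZeta ((2 * (i : ℕ) + 11 : ℕ) : ℂ)) ∧
    ∀ θ M : ℝ, 0 < θ → 1 < M → 14652 * θ * M < 1 →
      DichotomyR 8 (fun i => IsRat (number i)) (fun X i => RatNear θ X (number i)) M := by
  refine ⟨fun i => ?_, fun θ M hθ hM1 hM => ?_⟩
  · rw [zeta_eq_tsum_one_div_nat_add_one_cpow (by simp; linarith), number, Complex.ofReal_tsum]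
    refine tsum_congr fun n => ?_
    rw [Complex.cpow_natCast]
    push_cast
    rfl
  · obtain ⟨c, hc, h⟩ := Pool.Agent.TH900.XM.measure
    refine dichotomy_sim (r := 8) (by norm_num) number 1628 (by norm_num) c hc (fun a q hq => ?_) θ M hθ hM1 ?_ ?_
    · obtain ⟨j, hj, hv⟩ := h (fun j => if hj : (j - 11) / 2 < 9 then a ⟨(j - 11) / 2, hj⟩ else 0) q hq
      have key : ∀ i : Fin 9, j = 2 * (i : ℕ) + 11 → ∃ i, c / (q : ℝ) ^ 1628 ≤ |number i - a i / q| := by
        intro i hij
        refine ⟨i, ?_⟩
        subst hij
        have h1 : (2 * (i : ℕ) + 11 - 11) / 2 = i := by omega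
        have h2 : (2 * (i : ℕ) + 11 - 11) / 2 < 9 := by omega
        beta_reduce at hv
        rw [dif_pos h2] at hv
        have h3 : (⟨(2 * (i : ℕ) + 11 - 11) / 2, h2⟩ : Fin 9) = i := Fin.ext h1
        rw [h3] at hv
        exact hv
      fin_cases hj
      · exact key 0 rfl
      · exact key 1 rfl
      · exact key 2 rfl
      · exact key 3 rfl
      · exact key 4 rfl
      · exact key 5 rfl
      · exact key 6 rfl
      · exact key 7 rfl
      · exact key 8 rfl
    · have e1 : (((8 + 1) * 1628 : ℕ) : ℝ) = 14652 := by norm_num
      rw [e1]
      exact hM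
    · have h1 : 0 < θ * M := by positivity
      nlinarith

end Pool.Agent.Results.MP_4f096c_nt.ScaleDichotomy
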